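import Pool.Agent.FBH.Geodesic

set_option autoImplicit false

open Filter Topology Set
open scoped ContDiff

namespace Pool.Agent.FBH

theorem exp_abs_eq (r : ℝ) : Real.cosh r + |Real.sinh r| = Real.exp |r| := by
  rcases le_total 0 r with h | h
  · rw [abs_of_nonneg h, abs_of_nonneg (Real.sinh_nonneg_iff.2 h), Real.cosh_add_sinh]
  · rw [abs_of_nonpos h, abs_of_nonpos (Real.sinh_nonpos_iff.2 h), ← sub_eq_add_neg,
      Real.cosh_sub_sinh]

theorem exp_neg_abs_eq (r : ℝ) : Real.cosh r - |Real.sinh r| = Real.exp (-|r|) := by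
  rcases le_total 0 r with h | h
  · rw [abs_of_nonneg h, abs_of_nonneg (Real.sinh_nonneg_iff.2 h), Real.cosh_sub_sinh]
  · rw [abs_of_nonpos h, abs_of_nonpos (Real.sinh_nonpos_iff.2 h), sub_neg_eq_add,
      Real.cosh_add_sinh, neg_neg]

theorem nn_upper (z : TV) : nn z ≤ Real.exp |z.1.1| * sp z.2 := by
  have h1 := abs_le_sp z.2
  have h2 : Real.sinh z.1.1 * z.2.2 ≤ |Real.sinh z.1.1| * |z.2.2| := by
    rw [← abs_mul]; exact le_abs_self _
  have h3 : |Real.sinh z.1.1| * |z.2.2| ≤ |Real.sinh z.1.1| * sp z.2 := by gcongr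
  rw [← exp_abs_eq]
  simp only [nn]
  linarith

theorem const_on_Ioo {f : ℝ → ℝ} {T : ℝ} (hT : 0 < T) (h : ∀ t ∈ Ioo (-T) T, HasDerivAt f 0 t) :
    ∀ t ∈ Ioo (-T) T, f t = f 0 := by
  intro t ht
  exact isOpen_Ioo.is_const_of_deriv_eq_zero isPreconnected_Ioo
    (fun s hs => (h s hs).differentiableAt.differentiableWithinAt)
    (fun s hs => (h s hs).deriv) ht ⟨by linarith, hT⟩

theorem bound_on_Ioo {f f' : ℝ → ℝ} {T C : ℝ} (hT : 0 < T) (hC : 0 ≤ C)
    (h : ∀ t ∈ Ioo (-T) T, HasDerivAt f (f' t) t) (hb : ∀ t ∈ Ioo (-T) T, |f' t| ≤ C) :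
    ∀ t ∈ Ioo (-T) T, |f t - f 0| ≤ C * T := by
  intro t ht
  have h1 := (convex_Ioo (-T) T).norm_image_sub_le_of_norm_hasDerivWithin_le (f := f) (f' := f')
    (C := C) (fun s hs => (h s hs).hasDerivWithinAt) (fun s hs => hb s hs)
    (x := 0) (y := t) ⟨by linarith, hT⟩ ht
  rw [Real.norm_eq_abs, Real.norm_eq_abs, sub_zero] at h1
  have h2 : |t| ≤ T := abs_le.2 ⟨ht.1.le, ht.2.le⟩
  exact h1.trans (by gcongr)

/-- The compact set trapping the trajectories. -/
def trap (R B m M : ℝ) : Set TV :=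
  ((Icc (-R) R ×ˢ Icc (-B) B) ×ˢ (Icc (-M) M ×ˢ Icc (-M) M)) ∩ {z | m ≤ z.2.1 ^ 2 + z.2.2 ^ 2}

theorem isCompact_trap (R B m M : ℝ) : IsCompact (trap R B m M) := by
  refine ((isCompact_Icc.prod isCompact_Icc).prod (isCompact_Icc.prod isCompact_Icc)).inter_right ?_
  exact isClosed_le continuous_const (by fun_prop)

theorem trap_subset {R B m M : ℝ} (hm : 0 < m) : trap R B m M ⊆ {z : TV | z.2 ≠ 0} := by
  rintro z ⟨-, hz⟩ h
  replace hz : m ≤ z.2.1 ^ 2 + z.2.2 ^ 2 := hz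
  rw [h] at hz
  simp at hz
  linarith

theorem trapped {x v : V2} (hv : v ≠ 0) {T : ℝ} (hT : 0 < T) :
    ∃ K : Set TV, IsCompact K ∧ K ⊆ {z : TV | z.2 ≠ 0} ∧ ∀ (χ : TV → ℝ) (α : ℝ → TV),
      (∀ x, 0 ≤ χ x ∧ χ x ≤ 1) → α 0 = (x, v) → (∀ t ∈ Ioo (-T) T, α t ∈ {z : TV | z.2 ≠ 0}) →
      (∀ t ∈ Ioo (-T) T, HasDerivAt α (χ (α t) • XX (α t)) t) → ∀ t ∈ Ioo (-T) T, α t ∈ K := by
  set E := GG (x, v) with hE
  have hEpos : 0 < E := GG_pos (z := (x, v)) hv
  set R := |x.1| + √E * T with hR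
  have hsE : 0 ≤ √E := Real.sqrt_nonneg _
  have hRnn : 0 ≤ R := by positivity
  set M := Real.exp R * √E with hM
  have hMnn : 0 ≤ M := by positivity
  set m := E / (1 + Real.exp R ^ 2) with hm
  have hmpos : 0 < m := by positivity
  refine ⟨trap R (|x.2| + M * T) m M, isCompact_trap _ _ _ _, trap_subset hmpos, ?_⟩
  intro χ α hχ h0 hU hα
  -- energy
  have henergy : ∀ t ∈ Ioo (-T) T, GG (α t) = E := by
    intro t ht
    have h1 := const_on_Ioo (f := fun t => GG (α t)) hT (fun s hs => by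
      have hd : HasFDerivAt GG (fderiv ℝ GG (α s)) (α s) :=
        ((contDiffAt_GG (n := 1) (hU s hs)).differentiableAt (by norm_num)).hasFDerivAt
      have h2 := hd.comp_hasDerivAt s (hα s hs)
      rw [map_smul, DG_XX (hU s hs), smul_zero] at h2
      exact h2) t ht
    simp only [h0] at h1
    exact h1
  have hρ : ∀ t ∈ Ioo (-T) T, |(α t).2.1| ≤ √E := by
    intro t ht
    refine Real.abs_le_sqrt ?_
    rw [← henergy t ht, GG]
    nlinarith [sq_nonneg (nn (α t))]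
  have hn : ∀ t ∈ Ioo (-T) T, nn (α t) ≤ √E := by
    intro t ht
    refine Real.le_sqrt_of_sq_le ?_
    rw [← henergy t ht, GG]
    nlinarith [sq_nonneg ((α t).2.1)]
  have hq : ∀ t ∈ Ioo (-T) T, HasDerivAt (fun t => (α t).1) (χ (α t) • (α t).2) t := fun t ht =>
    (hα t ht).fst
  have hr : ∀ t ∈ Ioo (-T) T, |(α t).1.1| ≤ R := by
    intro t ht
    have h1 := bound_on_Ioo (f := fun t => (α t).1.1) (f' := fun t => χ (α t) * (α t).2.1) hT hsE
      (fun s hs => (hq s hs).fst) (fun s hs => by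
        rw [abs_mul, abs_of_nonneg (hχ _).1]
        calc χ (α s) * |(α s).2.1| ≤ 1 * √E := by
              gcongr
              · exact (hχ _).2
              · exact hρ s hs
          _ = √E := one_mul _) t ht
    simp only [h0] at h1
    have h2 := abs_sub_abs_le_abs_sub (α t).1.1 x.1
    linarith
  have hsp : ∀ t ∈ Ioo (-T) T, sp (α t).2 ≤ M := by
    intro t ht
    have h1 := nn_lower (α t)
    rw [exp_neg_abs_eq] at h1
    have h2 : Real.exp (-R) * sp (α t).2 ≤ √E := by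
      refine le_trans ?_ (h1.trans (hn t ht))
      have := sp_nonneg (α t).2
      gcongr
      exact hr t ht
    rw [hM]
    calc sp (α t).2 = Real.exp R * (Real.exp (-R) * sp (α t).2) := by
          rw [← mul_assoc, ← Real.exp_add]
          simp
      _ ≤ Real.exp R * √E := by gcongr
  have hv1 : ∀ t ∈ Ioo (-T) T, |(α t).2.1| ≤ M := fun t ht => by
    refine le_trans ?_ (hsp t ht)
    rw [sp]
    exact Real.abs_le_sqrt (by nlinarith [sq_nonneg (α t).2.2])
  have hv2 : ∀ t ∈ Ioo (-T) T, |(α t).2.2| ≤ M := fun t ht =>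
    (abs_le_sp _).trans (hsp t ht)
  have hth : ∀ t ∈ Ioo (-T) T, |(α t).1.2| ≤ |x.2| + M * T := by
    intro t ht
    have h1 := bound_on_Ioo (f := fun t => (α t).1.2) (f' := fun t => χ (α t) * (α t).2.2) hT hMnn
      (fun s hs => (hq s hs).snd) (fun s hs => by
        rw [abs_mul, abs_of_nonneg (hχ _).1]
        calc χ (α s) * |(α s).2.2| ≤ 1 * M := by
              gcongr
              · exact (hχ _).2
              · exact hv2 s hs
          _ = M := one_mul _) t ht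
    simp only [h0] at h1
    have h2 := abs_sub_abs_le_abs_sub (α t).1.2 x.2
    linarith
  intro t ht
  refine ⟨⟨⟨abs_le.1 (hr t ht), abs_le.1 (hth t ht)⟩, ⟨abs_le.1 (hv1 t ht), abs_le.1 (hv2 t ht)⟩⟩, ?_⟩
  -- lower bound of the speed
  show m ≤ (α t).2.1 ^ 2 + (α t).2.2 ^ 2
  rw [hm, div_le_iff₀ (by positivity), ← henergy t ht, ← sp_sq, GG]
  have h1 := nn_upper (α t)
  have h2 : Real.exp |(α t).1.1| * sp (α t).2 ≤ Real.exp R * sp (α t).2 := by
    have := sp_nonneg (α t).2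
    gcongr
    exact hr t ht
  have h3 : nn (α t) ^ 2 ≤ (Real.exp R * sp (α t).2) ^ 2 := by
    have := nn_nonneg (α t)
    gcongr
    exact h1.trans h2
  have h4 : (α t).2.1 ^ 2 ≤ sp (α t).2 ^ 2 := by
    rw [sp_sq]
    nlinarith [sq_nonneg (α t).2.2]
  nlinarith

theorem fderiv_FF_vel {p v : V2} (hv : v ≠ 0) :
    fderiv ℝ (fun u : V2 => FF (p, u) ^ 2) v = PP (p, v) := by
  simp only [FF_sq]
  exact fderiv_vel_eq hv

theorem fderiv_FF_pos {p v : V2} (hv : v ≠ 0) :
    fderiv ℝ (fun q : V2 => FF (q, v) ^ 2) p = QQ (p, v) := by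
  simp only [FF_sq]
  exact fderiv_pos_eq hv

/-- Two sided completeness. -/
theorem complete (x v : V2) (hv : v ≠ 0) : ∃ γ : ℝ → V2, ContDiff ℝ 2 γ ∧ γ 0 = x ∧ deriv γ 0 = v ∧
    ∀ t : ℝ, deriv (fun s => fderiv ℝ (fun u : V2 => FF (γ s, u) ^ 2) (deriv γ s)) t
      = fderiv ℝ (fun q : V2 => FF (q, deriv γ t) ^ 2) (γ t) := by
  obtain ⟨α, h0, hU, hα⟩ := global_exists isOpen_UU contDiffOn_XX (x₀ := (x, v)) hv
    (fun T hT => trapped hv hT)
  have hγ : ∀ t, HasDerivAt (fun t => (α t).1) (α t).2 t := fun t => (hα t).fst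
  have hγ' : deriv (fun t => (α t).1) = fun t => (α t).2 := funext fun t => (hγ t).deriv
  have hw : ∀ t, HasDerivAt (fun t => (α t).2) (AA (α t)) t := fun t => (hα t).snd
  have hw' : deriv (fun t => (α t).2) = fun t => AA (α t) := funext fun t => (hw t).deriv
  have hαc : Continuous α := continuous_iff_continuousAt.2 fun t => (hα t).continuousAt
  have hAc : Continuous fun t => AA (α t) := by
    rw [continuous_iff_continuousAt]
    intro t
    exact ContinuousAt.comp (g := AA) (contDiffAt_AA (hU t)).continuousAt hαc.continuousAt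
  have hC1 : ContDiff ℝ 1 (fun t => (α t).2) := by
    rw [contDiff_one_iff_deriv, hw']
    exact ⟨fun t => (hw t).differentiableAt, hAc⟩
  refine ⟨fun t => (α t).1, ?_, by simp [h0], by rw [hγ']; simp [h0], fun t => ?_⟩
  · rw [show (2 : WithTop ℕ∞) = 1 + 1 by norm_num, contDiff_succ_iff_deriv, hγ']
    exact ⟨fun t => (hγ t).differentiableAt, by simp, hC1⟩
  · rw [hγ', fderiv_FF_pos (hU t)]
    have h1 : (fun s => fderiv ℝ (fun u : V2 => FF ((α s).1, u) ^ 2) ((α s).2)) =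
        fun s => PP (α s) := funext fun s => fderiv_FF_vel (hU s)
    rw [h1]
    have hdP : HasFDerivAt PP (fderiv ℝ PP (α t)) (α t) :=
      ((contDiffAt_PP (n := 1) (hU t)).differentiableAt (by norm_num)).hasFDerivAt
    have h2 := hdP.comp_hasDerivAt t (hα t)
    rw [DP_XX (hU t)] at h2
    exact h2.deriv

end Pool.Agent.FBH
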