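import Mathlib

set_option autoImplicit false

open Filter Topology Set Metric
open scoped ContDiff NNReal Manifold

namespace Pool.Agent.FBH

variable {E : Type*} [NormedAddCommGroup E] [NormedSpace ℝ E] [FiniteDimensional ℝ E]

theorem exists_cutoff {K U : Set E} (hK : IsCompact K) (hU : IsOpen U) (hKU : K ⊆ U) :
    ∃ χ : E → ℝ, ContDiff ℝ ∞ χ ∧ HasCompactSupport χ ∧ tsupport χ ⊆ U ∧ (∀ x ∈ K, χ x = 1) ∧
      ∀ x, 0 ≤ χ x ∧ χ x ≤ 1 := by
  obtain ⟨V, hV, hKV, hVU, hVc⟩ := exists_open_between_and_isCompact_closure hK hU hKU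
  obtain ⟨χ, h1, h2, h3, h4⟩ := exists_contMDiff_support_eq_eq_one_iff (n := (⊤ : ℕ∞)) 𝓘(ℝ, E) hV
    hK.isClosed hKV
  have hts : tsupport χ = closure V := by rw [tsupport, h3]
  refine ⟨χ, h1.contDiff, ?_, by rw [hts]; exact hVU, fun x hx => (h4 x).1 hx, fun x => ?_⟩
  · rw [HasCompactSupport, hts]
    exact hVc
  · exact h2 (mem_range_self x)

omit [FiniteDimensional ℝ E] in
theorem exists_solution_Ioo [CompleteSpace E] {X : E → E} {K : ℝ≥0} {C : ℝ≥0}
    (hL : LipschitzWith K X) (hC : ∀ x, ‖X x‖ ≤ C) (x₀ : E) {T : ℝ} (hT : 0 < T) :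
    ∃ α : ℝ → E, α 0 = x₀ ∧ ∀ t ∈ Ioo (-T) T, HasDerivAt α (X (α t)) t := by
  have hpl : IsPicardLindelof (fun _ => X) (tmin := -T) (tmax := T) ⟨0, by constructor <;> linarith⟩
      x₀ (C * ⟨T, hT.le⟩) 0 C K := by
    refine IsPicardLindelof.of_time_independent (fun x _ => hC x) hL.lipschitzOnWith ?_
    simp only [sub_zero, zero_sub, neg_neg, max_self, NNReal.coe_mul, NNReal.coe_zero]
    exact le_rfl
  obtain ⟨α, h0, h1⟩ := hpl.exists_eq_forall_mem_Icc_hasDerivWithinAt₀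
  refine ⟨α, h0, fun t ht => ?_⟩
  exact (h1 t (Ioo_subset_Icc_self ht)).hasDerivAt (Icc_mem_nhds ht.1 ht.2)

omit [FiniteDimensional ℝ E] in
/-- The field cut off by `χ` is globally Lipschitz and bounded. -/
theorem cut_field {U : Set E} (hU : IsOpen U) {X : E → E} (hX : ContDiffOn ℝ 1 X U) {χ : E → ℝ}
    (h1 : ContDiff ℝ ∞ χ) (h2 : HasCompactSupport χ) (h3 : tsupport χ ⊆ U) :
    ∃ K C : ℝ≥0, LipschitzWith K (fun x => χ x • X x) ∧ ∀ x, ‖χ x • X x‖ ≤ C := by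
  have hc : ContDiff ℝ 1 (fun x => χ x • X x) := by
    rw [contDiff_iff_contDiffAt]
    intro x
    by_cases hx : x ∈ tsupport χ
    · exact (h1.of_le (by exact_mod_cast le_top)).contDiffAt.smul (hX.contDiffAt (hU.mem_nhds (h3 hx)))
    · have : (fun x => χ x • X x) =ᶠ[𝓝 x] fun _ => 0 := by
        filter_upwards [(isClosed_tsupport χ).isOpen_compl.mem_nhds hx] with y hy
        simp [image_eq_zero_of_notMem_tsupport hy]
      exact contDiffAt_const.congr_of_eventuallyEq this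
  have hs : HasCompactSupport (fun x => χ x • X x) := h2.smul_right
  obtain ⟨K, hK⟩ := hc.lipschitzWith_of_hasCompactSupport hs (by norm_num)
  obtain ⟨C, hC⟩ := hs.exists_bound_of_continuous hc.continuous
  refine ⟨K, ⟨max C 0, le_max_right _ _⟩, hK, fun x => ?_⟩
  exact (hC x).trans (le_max_left _ _)

/-- Global existence for a `C^1` vector field on an open set with compact a priori bounds which
also hold for the reparametrised fields `χ X`. -/
theorem global_exists {U : Set E} (hU : IsOpen U) {X : E → E} (hX : ContDiffOn ℝ 1 X U) {x₀ : E}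
    (h₀ : x₀ ∈ U)
    (hK : ∀ T : ℝ, 0 < T → ∃ K : Set E, IsCompact K ∧ K ⊆ U ∧ ∀ (χ : E → ℝ) (α : ℝ → E),
      (∀ x, 0 ≤ χ x ∧ χ x ≤ 1) → α 0 = x₀ → (∀ t ∈ Ioo (-T) T, α t ∈ U) →
      (∀ t ∈ Ioo (-T) T, HasDerivAt α (χ (α t) • X (α t)) t) → ∀ t ∈ Ioo (-T) T, α t ∈ K) :
    ∃ α : ℝ → E, α 0 = x₀ ∧ (∀ t, α t ∈ U) ∧ ∀ t, HasDerivAt α (X (α t)) t := by
  -- solutions on finite intervals
  have key : ∀ n : ℕ, ∃ (K : Set E) (α : ℝ → E), IsCompact K ∧ K ⊆ U ∧ α 0 = x₀ ∧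
      ∀ t ∈ Ioo (-((n : ℝ) + 1)) ((n : ℝ) + 1), α t ∈ K ∧ HasDerivAt α (X (α t)) t := by
    intro n
    have hT : 0 < (n : ℝ) + 1 := by positivity
    obtain ⟨K, hKc, hKU, hKinv⟩ := hK ((n : ℝ) + 1) hT
    obtain ⟨χ, c1, c2, c3, c4, c5⟩ := exists_cutoff hKc hU hKU
    obtain ⟨L, C, hL, hC⟩ := cut_field hU hX c1 c2 c3
    obtain ⟨α, a0, a1⟩ := exists_solution_Ioo hL hC x₀ hT
    have hαU : ∀ t ∈ Ioo (-((n : ℝ) + 1)) ((n : ℝ) + 1), α t ∈ U := by
      intro t ht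
      by_cases hts : α t ∈ tsupport χ
      · exact c3 hts
      · have hz : χ (α t) • X (α t) = 0 := by
          rw [image_eq_zero_of_notMem_tsupport hts, zero_smul]
        have heq := ODE_solution_unique_of_mem_Ioo (v := fun _ x => χ x • X x) (s := fun _ => univ)
          (K := L) (f := α) (g := fun _ => α t) (fun _ _ => hL.lipschitzOnWith) ht
          (fun s hs => ⟨a1 s hs, trivial⟩)
          (fun s _ => ⟨by
            rw [hz]
            exact hasDerivAt_const s (α t), trivial⟩) rfl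
        have h00 : (0 : ℝ) ∈ Ioo (-((n : ℝ) + 1)) ((n : ℝ) + 1) := ⟨by linarith, hT⟩
        have := heq h00
        simp only at this
        rw [← this, a0]
        exact h₀
    have hαK := hKinv χ α c5 a0 hαU a1
    refine ⟨K, α, hKc, hKU, a0, fun t ht => ⟨hαK t ht, ?_⟩⟩
    have := a1 t ht
    rwa [c4 _ (hαK t ht), one_smul] at this
  choose K α hKc hKU hα0 hα using key
  -- compatibility
  have hcomp : ∀ n m : ℕ, n ≤ m → EqOn (α n) (α m) (Ioo (-((n : ℝ) + 1)) ((n : ℝ) + 1)) := by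
    intro n m hnm
    have hnm' : (n : ℝ) ≤ m := by exact_mod_cast hnm
    obtain ⟨χ, c1, c2, c3, c4, c5⟩ := exists_cutoff ((hKc n).union (hKc m)) hU
      (union_subset (hKU n) (hKU m))
    obtain ⟨L, C, hL, hC⟩ := cut_field hU hX c1 c2 c3
    have h00 : (0 : ℝ) ∈ Ioo (-((n : ℝ) + 1)) ((n : ℝ) + 1) := by
      have : (0 : ℝ) ≤ n := by positivity
      constructor <;> linarith
    refine ODE_solution_unique_of_mem_Ioo (v := fun _ x => χ x • X x) (s := fun _ => univ)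
      (K := L) (fun _ _ => hL.lipschitzOnWith) h00 (fun s hs => ⟨?_, trivial⟩)
      (fun s hs => ⟨?_, trivial⟩) (by rw [hα0, hα0])
    · rw [c4 _ (Or.inl (hα n s hs).1), one_smul]
      exact (hα n s hs).2
    · have hs' : s ∈ Ioo (-((m : ℝ) + 1)) ((m : ℝ) + 1) := ⟨by linarith [hs.1], by linarith [hs.2]⟩
      rw [c4 _ (Or.inr (hα m s hs').1), one_smul]
      exact (hα m s hs').2
  let N : ℝ → ℕ := fun t => ⌈|t|⌉₊
  have hN : ∀ t : ℝ, t ∈ Ioo (-((N t : ℝ) + 1)) ((N t : ℝ) + 1) := by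
    intro t
    have h1 : |t| ≤ (N t : ℝ) := Nat.le_ceil _
    rw [abs_le] at h1
    constructor <;> linarith
  have heq : ∀ (n : ℕ) (t : ℝ), t ∈ Ioo (-((n : ℝ) + 1)) ((n : ℝ) + 1) → α (N t) t = α n t := by
    intro n t ht
    rcases le_total (N t) n with h | h
    · exact hcomp _ _ h (hN t)
    · exact (hcomp _ _ h ht).symm
  refine ⟨fun t => α (N t) t, ?_, fun t => hKU _ (hα _ t (hN t)).1, fun t => ?_⟩
  · exact hα0 _
  · have h1 := (hα (N t) t (hN t)).2
    refine h1.congr_of_eventuallyEq ?_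
    filter_upwards [isOpen_Ioo.mem_nhds (hN t)] with s hs
    exact heq _ _ hs

end Pool.Agent.FBH
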