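import Pool.Agent.FBH.Metric
import Pool.Agent.FBH.GlobalODE

set_option autoImplicit false

open Filter Topology Set
open scoped ContDiff

namespace Pool.Agent.FBH

abbrev V2 := ℝ × ℝ
abbrev TV := V2 × V2

/-- momentum -/
noncomputable def PP (z : TV) : V2 →L[ℝ] ℝ :=
  (fderiv ℝ GG z).comp (ContinuousLinearMap.inr ℝ V2 V2)

/-- force -/
noncomputable def QQ (z : TV) : V2 →L[ℝ] ℝ :=
  (fderiv ℝ GG z).comp (ContinuousLinearMap.inl ℝ V2 V2)

theorem PP_apply (z : TV) (w : V2) : PP z w = fderiv ℝ GG z (0, w) := by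
  simp [PP]

theorem QQ_apply (z : TV) (w : V2) : QQ z w = fderiv ℝ GG z (w, 0) := by
  simp [QQ]

theorem contDiffAt_fderiv_GG {n : ℕ} {z : TV} (hz : z.2 ≠ 0) :
    ContDiffAt ℝ n (fderiv ℝ GG) z :=
  (contDiffAt_GG (n := (n + 1 : ℕ)) hz).fderiv_right (m := n) (by exact_mod_cast le_rfl)

theorem contDiffAt_PP {n : ℕ} {z : TV} (hz : z.2 ≠ 0) : ContDiffAt ℝ n PP z :=
  (contDiffAt_fderiv_GG hz).clm_comp contDiffAt_const

theorem contDiffAt_QQ {n : ℕ} {z : TV} (hz : z.2 ≠ 0) : ContDiffAt ℝ n QQ z :=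
  (contDiffAt_fderiv_GG hz).clm_comp contDiffAt_const

theorem fderiv_vel_eq {p v : V2} (hv : v ≠ 0) : fderiv ℝ (fun u => GG (p, u)) v = PP (p, v) := by
  ext <;> simp [PP_apply, fderiv_vel hv]

theorem fderiv_pos_eq {p v : V2} (hv : v ≠ 0) : fderiv ℝ (fun q => GG (q, v)) p = QQ (p, v) := by
  ext <;> simp [QQ_apply, fderiv_pos hv]

/-- velocity Hessian -/
noncomputable def MM (z : TV) : V2 →L[ℝ] (V2 →L[ℝ] ℝ) :=
  (fderiv ℝ PP z).comp (ContinuousLinearMap.inr ℝ V2 V2)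

theorem contDiffAt_MM {n : ℕ} {z : TV} (hz : z.2 ≠ 0) : ContDiffAt ℝ n MM z :=
  ((contDiffAt_PP (n := n + 1) hz).fderiv_right (m := n) (by exact_mod_cast le_rfl)).clm_comp
    contDiffAt_const

theorem MM_pos {z : TV} (hz : z.2 ≠ 0) {w : V2} (hw : w ≠ 0) : 0 < MM z w w := by
  obtain ⟨p, v⟩ := z
  simp only at hz
  have h1 := hess_pos (p := p) hz hw
  have h2 : fderiv ℝ (fun u => GG (p, u)) =ᶠ[𝓝 v] fun u => PP (p, u) := by
    filter_upwards [isOpen_ne.mem_nhds hz] with u hu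
    exact fderiv_vel_eq hu
  have hd : DifferentiableAt ℝ PP (p, v) :=
    (contDiffAt_PP (n := 1) (z := (p, v)) hz).differentiableAt (by norm_num)
  have h3 : HasFDerivAt (fun u : V2 => PP (p, u)) ((fderiv ℝ PP (p, v)).comp
      (ContinuousLinearMap.inr ℝ V2 V2)) v :=
    HasFDerivAt.comp (g := PP) (f := fun u : V2 => (p, u)) v hd.hasFDerivAt
      (hasFDerivAt_prodMk_right p v)
  rw [h2.fderiv_eq, h3.fderiv] at h1
  exact h1

theorem finrank_dual_V2 : Module.finrank ℝ V2 = Module.finrank ℝ (V2 →L[ℝ] ℝ) := by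
  rw [← (LinearMap.toContinuousLinearMap (𝕜 := ℝ) (E := V2) (F' := ℝ)).finrank_eq]
  exact (Subspace.dual_finrank_eq (K := ℝ) (V := V2)).symm

theorem MM_equiv {z : TV} (hz : z.2 ≠ 0) : ∃ e : V2 ≃L[ℝ] (V2 →L[ℝ] ℝ), (e : V2 →L[ℝ] _) = MM z := by
  have hinj : Function.Injective (MM z : V2 →ₗ[ℝ] (V2 →L[ℝ] ℝ)) := by
    rw [← LinearMap.ker_eq_bot, LinearMap.ker_eq_bot']
    intro w hw
    by_contra hne
    have h1 := MM_pos hz hne
    have h2 : MM z w = 0 := hw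
    rw [h2] at h1
    simp at h1
  refine ⟨((MM z : V2 →ₗ[ℝ] (V2 →L[ℝ] ℝ)).linearEquivOfInjective hinj
    finrank_dual_V2).toContinuousLinearEquiv, ?_⟩
  ext <;> rfl

/-- acceleration -/
noncomputable def AA (z : TV) : V2 :=
  (ContinuousLinearMap.inverse (MM z)) (QQ z - fderiv ℝ PP z (z.2, 0))

theorem MM_AA {z : TV} (hz : z.2 ≠ 0) : MM z (AA z) = QQ z - fderiv ℝ PP z (z.2, 0) := by
  obtain ⟨e, he⟩ := MM_equiv hz
  rw [AA, ← he, ContinuousLinearMap.inverse_equiv]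
  simp

/-- The geodesic vector field. -/
noncomputable def XX (z : TV) : TV := (z.2, AA z)

theorem DP_XX {z : TV} (hz : z.2 ≠ 0) : fderiv ℝ PP z (XX z) = QQ z := by
  have h1 : XX z = (z.2, 0) + (0, AA z) := by simp [XX]
  have h2 : fderiv ℝ PP z (0, AA z) = MM z (AA z) := by simp [MM]
  rw [h1, map_add, h2, MM_AA hz]
  abel

theorem contDiffAt_AA {z : TV} (hz : z.2 ≠ 0) : ContDiffAt ℝ 1 AA z := by
  obtain ⟨e, he⟩ := MM_equiv hz
  have h1 : ContDiffAt ℝ 1 (fun z => ContinuousLinearMap.inverse (MM z)) z := by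
    refine ContDiffAt.comp (g := ContinuousLinearMap.inverse) z ?_ (contDiffAt_MM (n := 1) hz)
    rw [← he]
    exact contDiffAt_map_inverse e
  have h2 : ContDiffAt ℝ 1 (fun z : TV => (z.2, (0 : V2))) z :=
    contDiffAt_snd.prodMk contDiffAt_const
  have h3 : ContDiffAt ℝ 1 (fun z => fderiv ℝ PP z (z.2, 0)) z :=
    ((contDiffAt_PP (n := 2) hz).fderiv_right (m := 1) (by norm_num)).clm_apply h2
  exact h1.clm_apply ((contDiffAt_QQ (n := 1) hz).sub h3)

theorem isOpen_UU : IsOpen {z : TV | z.2 ≠ 0} := isOpen_ne.preimage continuous_snd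

theorem contDiffOn_XX : ContDiffOn ℝ 1 XX {z : TV | z.2 ≠ 0} := fun _ hz =>
  (contDiffAt_snd.prodMk (contDiffAt_AA hz)).contDiffWithinAt

theorem PP_euler {z : TV} (hz : z.2 ≠ 0) : PP z z.2 = 2 * GG z := by
  have hs := (sp_pos hz).ne'
  have h1 := sp_sq z.2
  rw [PP_apply, fderiv_GG hz]
  simp only [Prod.fst_zero, mul_zero, zero_add, add_zero]
  have h2 : (z.2.1 * z.2.1 + z.2.2 * z.2.2) / sp z.2 = sp z.2 := by
    rw [div_eq_iff hs, ← pow_two (sp z.2), h1]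
    ring
  rw [h2, GG, nn]
  ring

/-- Conservation of energy. -/
theorem DG_XX {z : TV} (hz : z.2 ≠ 0) : fderiv ℝ GG z (XX z) = 0 := by
  have hdP : HasFDerivAt PP (fderiv ℝ PP z) z :=
    ((contDiffAt_PP (n := 1) hz).differentiableAt (by norm_num)).hasFDerivAt
  have hdG : HasFDerivAt GG (fderiv ℝ GG z) z :=
    ((contDiffAt_GG (n := 1) hz).differentiableAt (by norm_num)).hasFDerivAt
  have h1 : HasFDerivAt (fun z : TV => PP z z.2) _ z := hdP.clm_apply hasFDerivAt_snd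
  have h2 : HasFDerivAt (fun z : TV => PP z z.2) ((2 : ℝ) • fderiv ℝ GG z) z := by
    have h3 : HasFDerivAt (fun z : TV => 2 * GG z) ((2 : ℝ) • fderiv ℝ GG z) z := hdG.const_mul 2
    refine h3.congr_of_eventuallyEq ?_
    filter_upwards [isOpen_UU.mem_nhds hz] with y hy
    exact PP_euler hy
  have h4 := congrArg (fun L : TV →L[ℝ] ℝ => L (XX z)) (h1.unique h2)
  simp only [add_apply, ContinuousLinearMap.comp_apply,
    ContinuousLinearMap.flip_apply, smul_apply, smul_eq_mul,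
    ContinuousLinearMap.coe_snd'] at h4
  rw [DP_XX hz] at h4
  have h5 : fderiv ℝ GG z (XX z) = QQ z z.2 + PP z (AA z) := by
    have : XX z = (z.2, 0) + (0, AA z) := by simp [XX]
    rw [this, map_add, QQ_apply, PP_apply]
  have h6 : (XX z).2 = AA z := rfl
  rw [h6] at h4
  linarith

end Pool.Agent.FBH
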