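import Mathlib

set_option autoImplicit false

open Filter Topology Set
open scoped ContDiff

namespace Pool.Agent.FBH

/-- Euclidean norm of the velocity. -/
noncomputable def sp (v : ℝ × ℝ) : ℝ := √(v.1 ^ 2 + v.2 ^ 2)

/-- the Randers type norm `cosh r |v| + sinh r τ` -/
noncomputable def nn (z : (ℝ × ℝ) × (ℝ × ℝ)) : ℝ :=
  Real.cosh z.1.1 * sp z.2 + Real.sinh z.1.1 * z.2.2

/-- the squared metric -/
noncomputable def GG (z : (ℝ × ℝ) × (ℝ × ℝ)) : ℝ := z.2.1 ^ 2 + nn z ^ 2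

/-- the metric -/
noncomputable def FF (z : (ℝ × ℝ) × (ℝ × ℝ)) : ℝ := √(GG z)

theorem GG_nonneg (z : (ℝ × ℝ) × (ℝ × ℝ)) : 0 ≤ GG z := by unfold GG; positivity

theorem FF_nonneg (z : (ℝ × ℝ) × (ℝ × ℝ)) : 0 ≤ FF z := Real.sqrt_nonneg _

theorem FF_sq (z : (ℝ × ℝ) × (ℝ × ℝ)) : FF z ^ 2 = GG z := Real.sq_sqrt (GG_nonneg z)

theorem sp_sq (v : ℝ × ℝ) : sp v ^ 2 = v.1 ^ 2 + v.2 ^ 2 := Real.sq_sqrt (by positivity)

theorem sp_nonneg (v : ℝ × ℝ) : 0 ≤ sp v := Real.sqrt_nonneg _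

theorem sp_arg_pos {v : ℝ × ℝ} (hv : v ≠ 0) : 0 < v.1 ^ 2 + v.2 ^ 2 := by
  by_contra h
  have h1 : v.1 ^ 2 + v.2 ^ 2 = 0 := le_antisymm (not_lt.1 h) (by positivity)
  have h2 : v.1 = 0 := by nlinarith [sq_nonneg v.1, sq_nonneg v.2]
  have h3 : v.2 = 0 := by nlinarith [sq_nonneg v.1, sq_nonneg v.2]
  exact hv (Prod.ext h2 h3)

theorem sp_pos {v : ℝ × ℝ} (hv : v ≠ 0) : 0 < sp v := Real.sqrt_pos.2 (sp_arg_pos hv)

theorem abs_le_sp (v : ℝ × ℝ) : |v.2| ≤ sp v := by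
  rw [sp]
  exact Real.abs_le_sqrt (by nlinarith [sq_nonneg v.1])

theorem cosh_sub_pos (r : ℝ) : |Real.sinh r| < Real.cosh r := by
  rw [abs_lt]
  have h1 := Real.cosh_sub_sinh r
  have h2 := Real.cosh_add_sinh r
  have h3 := Real.exp_pos r
  have h4 := Real.exp_pos (-r)
  constructor <;> linarith

theorem nn_lower (z : (ℝ × ℝ) × (ℝ × ℝ)) :
    (Real.cosh z.1.1 - |Real.sinh z.1.1|) * sp z.2 ≤ nn z := by
  have h1 := abs_le_sp z.2
  have h2 : -(|Real.sinh z.1.1| * |z.2.2|) ≤ Real.sinh z.1.1 * z.2.2 := by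
    rw [← abs_mul]; exact neg_abs_le _
  have h3 : |Real.sinh z.1.1| * |z.2.2| ≤ |Real.sinh z.1.1| * sp z.2 := by gcongr
  simp only [nn]
  linarith

theorem nn_pos {z : (ℝ × ℝ) × (ℝ × ℝ)} (hz : z.2 ≠ 0) : 0 < nn z := by
  have h1 := nn_lower z
  have h2 := cosh_sub_pos z.1.1
  have h3 := sp_pos hz
  have : 0 < (Real.cosh z.1.1 - |Real.sinh z.1.1|) * sp z.2 := mul_pos (by linarith) h3
  linarith

theorem nn_nonneg (z : (ℝ × ℝ) × (ℝ × ℝ)) : 0 ≤ nn z := by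
  have h1 := nn_lower z
  have h2 := cosh_sub_pos z.1.1
  have h3 := sp_nonneg z.2
  have : 0 ≤ (Real.cosh z.1.1 - |Real.sinh z.1.1|) * sp z.2 := mul_nonneg (by linarith) h3
  linarith

theorem GG_pos {z : (ℝ × ℝ) × (ℝ × ℝ)} (hz : z.2 ≠ 0) : 0 < GG z := by
  have := nn_pos hz
  unfold GG
  positivity

theorem continuous_sp : Continuous sp := by
  unfold sp
  fun_prop

theorem continuous_FF : Continuous FF := by
  have h1 : Continuous (fun z : (ℝ × ℝ) × (ℝ × ℝ) => sp z.2) := continuous_sp.comp continuous_snd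
  have h2 : Continuous (fun z : (ℝ × ℝ) × (ℝ × ℝ) => Real.cosh z.1.1) :=
    Real.continuous_cosh.comp (by fun_prop)
  have h3 : Continuous (fun z : (ℝ × ℝ) × (ℝ × ℝ) => Real.sinh z.1.1) :=
    Real.continuous_sinh.comp (by fun_prop)
  unfold FF GG nn
  fun_prop

theorem contDiffAt_sp {n : WithTop ℕ∞} {v : ℝ × ℝ} (hv : v ≠ 0) : ContDiffAt ℝ n sp v := by
  unfold sp
  refine ContDiffAt.sqrt ?_ (sp_arg_pos hv).ne'
  exact (contDiffAt_fst.pow 2).add (contDiffAt_snd.pow 2)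

theorem contDiffAt_nn {n : WithTop ℕ∞} {z : (ℝ × ℝ) × (ℝ × ℝ)} (hz : z.2 ≠ 0) : ContDiffAt ℝ n nn z := by
  have h1 : ContDiffAt ℝ n (fun z : (ℝ × ℝ) × (ℝ × ℝ) => sp z.2) z :=
    ContDiffAt.comp (g := sp) z (contDiffAt_sp hz) contDiffAt_snd
  have h0 : ContDiffAt ℝ n (fun z : (ℝ × ℝ) × (ℝ × ℝ) => z.1.1) z :=
    (contDiff_fst.comp contDiff_fst).contDiffAt
  have h2 : ContDiffAt ℝ n (fun z : (ℝ × ℝ) × (ℝ × ℝ) => Real.cosh z.1.1) z :=
    Real.contDiff_cosh.contDiffAt.comp z h0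
  have h3 : ContDiffAt ℝ n (fun z : (ℝ × ℝ) × (ℝ × ℝ) => Real.sinh z.1.1) z :=
    Real.contDiff_sinh.contDiffAt.comp z h0
  have h4 : ContDiffAt ℝ n (fun z : (ℝ × ℝ) × (ℝ × ℝ) => z.2.2) z :=
    (contDiff_snd.comp contDiff_snd).contDiffAt
  exact (h2.mul h1).add (h3.mul h4)

theorem contDiffAt_GG {n : WithTop ℕ∞} {z : (ℝ × ℝ) × (ℝ × ℝ)} (hz : z.2 ≠ 0) : ContDiffAt ℝ n GG z := by
  have h4 : ContDiffAt ℝ n (fun z : (ℝ × ℝ) × (ℝ × ℝ) => z.2.1) z :=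
    (contDiff_fst.comp contDiff_snd).contDiffAt
  exact (h4.pow 2).add ((contDiffAt_nn hz).pow 2)

theorem contDiffAt_FF {n : WithTop ℕ∞} {z : (ℝ × ℝ) × (ℝ × ℝ)} (hz : z.2 ≠ 0) : ContDiffAt ℝ n FF z :=
  (contDiffAt_GG hz).sqrt (GG_pos hz).ne'

theorem sp_smul {c : ℝ} (hc : 0 < c) (v : ℝ × ℝ) : sp (c • v) = c * sp v := by
  have h : (c • v).1 ^ 2 + (c • v).2 ^ 2 = c ^ 2 * (v.1 ^ 2 + v.2 ^ 2) := by
    simp
    ring
  rw [sp, h, Real.sqrt_mul (by positivity), Real.sqrt_sq hc.le, sp]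

theorem nn_smul {c : ℝ} (hc : 0 < c) (p v : ℝ × ℝ) : nn (p, c • v) = c * nn (p, v) := by
  simp only [nn, sp_smul hc, Prod.smul_snd, smul_eq_mul]
  ring

theorem GG_smul {c : ℝ} (hc : 0 < c) (p v : ℝ × ℝ) : GG (p, c • v) = c ^ 2 * GG (p, v) := by
  simp only [GG, nn_smul hc, Prod.smul_fst, smul_eq_mul]
  ring

theorem FF_smul {c : ℝ} (hc : 0 < c) (p v : ℝ × ℝ) : FF (p, c • v) = c * FF (p, v) := by
  rw [FF, GG_smul hc, Real.sqrt_mul (by positivity), Real.sqrt_sq hc.le, FF]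

/-- The derivative of the squared metric. -/
theorem fderiv_GG {z : (ℝ × ℝ) × (ℝ × ℝ)} (hz : z.2 ≠ 0) (w : (ℝ × ℝ) × (ℝ × ℝ)) :
    fderiv ℝ GG z w = 2 * z.2.1 * w.2.1 + 2 * nn z * (Real.sinh z.1.1 * sp z.2 * w.1.1 +
      Real.cosh z.1.1 * ((z.2.1 * w.2.1 + z.2.2 * w.2.2) / sp z.2) +
      Real.cosh z.1.1 * z.2.2 * w.1.1 + Real.sinh z.1.1 * w.2.2) := by
  have hs := (sp_pos hz).ne'
  have hd : DifferentiableAt ℝ GG z := (contDiffAt_GG (n := 1) hz).differentiableAt (by norm_num)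
  -- differentiate along the line
  have hline : HasDerivAt (fun t : ℝ => z + t • w) w 0 := by
    have := ((hasDerivAt_id (0 : ℝ)).smul_const w).const_add z
    simpa using this
  have h1 : HasDerivAt (fun t : ℝ => GG (z + t • w)) (fderiv ℝ GG z w) 0 := by
    have h2 : HasFDerivAt GG (fderiv ℝ GG z) (z + (0 : ℝ) • w) := by simpa using hd.hasFDerivAt
    exact h2.comp_hasDerivAt (0 : ℝ) hline
  have lin : ∀ a b : ℝ, HasDerivAt (fun t : ℝ => a + t * b) b 0 := by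
    intro a b
    have := ((hasDerivAt_id (0 : ℝ)).mul_const b).const_add a
    simpa using this
  have hsq : HasDerivAt (fun t : ℝ => (z.2.1 + t * w.2.1) ^ 2 + (z.2.2 + t * w.2.2) ^ 2)
      (2 * z.2.1 * w.2.1 + 2 * z.2.2 * w.2.2) 0 := by
    have := ((lin z.2.1 w.2.1).fun_pow 2).fun_add ((lin z.2.2 w.2.2).fun_pow 2)
    simpa using this
  have hsp : HasDerivAt (fun t : ℝ => √((z.2.1 + t * w.2.1) ^ 2 + (z.2.2 + t * w.2.2) ^ 2))
      ((z.2.1 * w.2.1 + z.2.2 * w.2.2) / sp z.2) 0 := by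
    have hne : (z.2.1 + (0 : ℝ) * w.2.1) ^ 2 + (z.2.2 + (0 : ℝ) * w.2.2) ^ 2 ≠ 0 := by
      simpa using (sp_arg_pos hz).ne'
    refine (hsq.sqrt hne).congr_deriv ?_
    simp only [zero_mul, add_zero]
    rw [sp]
    rw [sp] at hs
    field_simp
  have hC : HasDerivAt (fun t : ℝ => Real.cosh (z.1.1 + t * w.1.1)) (Real.sinh z.1.1 * w.1.1) 0 := by
    have := (lin z.1.1 w.1.1).cosh
    simpa using this
  have hS : HasDerivAt (fun t : ℝ => Real.sinh (z.1.1 + t * w.1.1)) (Real.cosh z.1.1 * w.1.1) 0 := by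
    have := (lin z.1.1 w.1.1).sinh
    simpa using this
  have hn := (hC.mul hsp).add (hS.mul (lin z.2.2 w.2.2))
  have hG := ((lin z.2.1 w.2.1).pow 2).add (hn.pow 2)
  have h3 := h1.unique hG
  rw [h3]
  simp only [zero_mul, add_zero, Pi.add_apply, Pi.mul_apply]
  simp only [nn, sp]
  push_cast
  ring

/-- Derivative in the velocity. -/
theorem fderiv_vel {p v : ℝ × ℝ} (hv : v ≠ 0) (w : ℝ × ℝ) :
    fderiv ℝ (fun u => GG (p, u)) v w = fderiv ℝ GG (p, v) (0, w) := by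
  have hd : DifferentiableAt ℝ GG (p, v) :=
    (contDiffAt_GG (n := 1) (z := (p, v)) hv).differentiableAt (by norm_num)
  have h1 : HasFDerivAt (fun u : ℝ × ℝ => (p, u)) (ContinuousLinearMap.inr ℝ (ℝ × ℝ) (ℝ × ℝ)) v :=
    hasFDerivAt_prodMk_right p v
  have h2 : HasFDerivAt (fun u => GG (p, u)) _ v :=
    HasFDerivAt.comp (g := GG) (f := fun u : ℝ × ℝ => (p, u)) v hd.hasFDerivAt h1
  rw [h2.fderiv]
  simp

/-- Derivative in the position. -/
theorem fderiv_pos {p v : ℝ × ℝ} (hv : v ≠ 0) (w : ℝ × ℝ) :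
    fderiv ℝ (fun q => GG (q, v)) p w = fderiv ℝ GG (p, v) (w, 0) := by
  have hd : DifferentiableAt ℝ GG (p, v) :=
    (contDiffAt_GG (n := 1) (z := (p, v)) hv).differentiableAt (by norm_num)
  have h1 : HasFDerivAt (fun q : ℝ × ℝ => (q, v)) (ContinuousLinearMap.inl ℝ (ℝ × ℝ) (ℝ × ℝ)) p :=
    hasFDerivAt_prodMk_left p v
  have h2 : HasFDerivAt (fun q => GG (q, v)) _ p :=
    HasFDerivAt.comp (g := GG) (f := fun q : ℝ × ℝ => (q, v)) p hd.hasFDerivAt h1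
  rw [h2.fderiv]
  simp

/-- Strong convexity. -/
theorem hess_pos {p v w : ℝ × ℝ} (hv : v ≠ 0) (hw : w ≠ 0) :
    0 < fderiv ℝ (fderiv ℝ (fun u => GG (p, u))) v w w := by
  have hs0 := sp_pos hv
  have hs := hs0.ne'
  have hcd : ContDiffAt ℝ 2 (fun u => GG (p, u)) v :=
    ContDiffAt.comp (g := GG) (f := fun u : ℝ × ℝ => (p, u)) v (contDiffAt_GG (z := (p, v)) hv)
      (contDiffAt_const.prodMk contDiffAt_id)
  have hd : DifferentiableAt ℝ (fderiv ℝ (fun u => GG (p, u))) v :=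
    (hcd.fderiv_right (m := 1) (by norm_num)).differentiableAt (by norm_num)
  have hline : HasDerivAt (fun t : ℝ => v + t • w) w 0 := by
    have := ((hasDerivAt_id (0 : ℝ)).smul_const w).const_add v
    simpa using this
  have h1 : HasDerivAt (fun t : ℝ => fderiv ℝ (fun u => GG (p, u)) (v + t • w) w)
      (fderiv ℝ (fderiv ℝ (fun u => GG (p, u))) v w w) 0 := by
    have h2 : HasFDerivAt (fderiv ℝ (fun u => GG (p, u)))
      (fderiv ℝ (fderiv ℝ (fun u => GG (p, u))) v) (v + (0 : ℝ) • w) := by simpa using hd.hasFDerivAt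
    have h3 := h2.comp_hasDerivAt (0 : ℝ) hline
    have h4 := h3.clm_apply (hasDerivAt_const (0 : ℝ) w)
    simpa using h4
  have lin : ∀ a b : ℝ, HasDerivAt (fun t : ℝ => a + t * b) b 0 := by
    intro a b
    have := ((hasDerivAt_id (0 : ℝ)).mul_const b).const_add a
    simpa using this
  have hsq : HasDerivAt (fun t : ℝ => (v.1 + t * w.1) ^ 2 + (v.2 + t * w.2) ^ 2)
      (2 * v.1 * w.1 + 2 * v.2 * w.2) 0 := by
    have := ((lin v.1 w.1).fun_pow 2).fun_add ((lin v.2 w.2).fun_pow 2)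
    simpa using this
  have hsp : HasDerivAt (fun t : ℝ => √((v.1 + t * w.1) ^ 2 + (v.2 + t * w.2) ^ 2))
      ((v.1 * w.1 + v.2 * w.2) / sp v) 0 := by
    have hne : (v.1 + (0 : ℝ) * w.1) ^ 2 + (v.2 + (0 : ℝ) * w.2) ^ 2 ≠ 0 := by
      simpa using (sp_arg_pos hv).ne'
    refine (hsq.sqrt hne).congr_deriv ?_
    simp only [zero_mul, add_zero]
    rw [sp]
    rw [sp] at hs
    field_simp
  have hdot : HasDerivAt (fun t : ℝ => (v.1 + t * w.1) * w.1 + (v.2 + t * w.2) * w.2)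
      (w.1 * w.1 + w.2 * w.2) 0 := ((lin v.1 w.1).mul_const w.1).add ((lin v.2 w.2).mul_const w.2)
  have hspne : √((v.1 + (0 : ℝ) * w.1) ^ 2 + (v.2 + (0 : ℝ) * w.2) ^ 2) ≠ 0 := by
    simpa [sp] using hs
  have hquot := hdot.div hsp hspne
  have hn : HasDerivAt (fun t : ℝ => Real.cosh p.1 * √((v.1 + t * w.1) ^ 2 + (v.2 + t * w.2) ^ 2) +
      Real.sinh p.1 * (v.2 + t * w.2)) (Real.cosh p.1 * ((v.1 * w.1 + v.2 * w.2) / sp v) +
      Real.sinh p.1 * w.2) 0 :=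
    (hsp.const_mul _).add ((lin v.2 w.2).const_mul _)
  have hbr := (hquot.const_mul (Real.cosh p.1)).add_const (Real.sinh p.1 * w.2)
  have hall := (((lin v.1 w.1).const_mul 2).mul_const w.1).add ((hn.const_mul 2).mul hbr)
  have hev : (fun t : ℝ => fderiv ℝ (fun u => GG (p, u)) (v + t • w) w) =ᶠ[𝓝 0] _ :=
    (show _ =ᶠ[𝓝 (0 : ℝ)] (fun t : ℝ => 2 * (v.1 + t * w.1) * w.1 +
      (2 * (Real.cosh p.1 * √((v.1 + t * w.1) ^ 2 + (v.2 + t * w.2) ^ 2) +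
      Real.sinh p.1 * (v.2 + t * w.2))) * (Real.cosh p.1 *
      (((v.1 + t * w.1) * w.1 + (v.2 + t * w.2) * w.2) /
        √((v.1 + t * w.1) ^ 2 + (v.2 + t * w.2) ^ 2)) + Real.sinh p.1 * w.2)) by
      have hne : ∀ᶠ t : ℝ in 𝓝 0, v + t • w ≠ 0 := by
        have hc : ContinuousAt (fun t : ℝ => v + t • w) 0 := hline.continuousAt
        exact hc.eventually_ne (by simpa using hv)
      filter_upwards [hne] with t ht
      rw [fderiv_vel ht, fderiv_GG (z := (p, v + t • w)) ht]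
      simp only [nn, sp, Prod.fst_add, Prod.snd_add, Prod.smul_fst, Prod.smul_snd, smul_eq_mul,
        Prod.fst_zero, mul_zero, zero_add, add_zero])
  have h5 := h1.unique (hall.congr_of_eventuallyEq hev)
  rw [h5]
  simp only [zero_mul, add_zero, Pi.div_apply]
  have e1 : √(v.1 ^ 2 + v.2 ^ 2) = sp v := rfl
  rw [e1]
  set n := Real.cosh p.1 * sp v + Real.sinh p.1 * v.2 with hndef
  have hnpos : 0 < n := nn_pos (z := (p, v)) hv
  have hCpos := Real.cosh_pos p.1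
  have e2 : 2 * w.1 * w.1 + (2 * (Real.cosh p.1 * ((v.1 * w.1 + v.2 * w.2) / sp v) +
      Real.sinh p.1 * w.2) * (Real.cosh p.1 * ((v.1 * w.1 + v.2 * w.2) / sp v) + Real.sinh p.1 * w.2) +
      2 * n * (Real.cosh p.1 * (((w.1 * w.1 + w.2 * w.2) * sp v -
        (v.1 * w.1 + v.2 * w.2) * ((v.1 * w.1 + v.2 * w.2) / sp v)) / sp v ^ 2))) =
      2 * w.1 ^ 2 + 2 * (Real.cosh p.1 * ((v.1 * w.1 + v.2 * w.2) / sp v) + Real.sinh p.1 * w.2) ^ 2 +
      2 * n * Real.cosh p.1 * ((w.1 * v.2 - w.2 * v.1) ^ 2 / sp v ^ 3) := by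
    have h6 := sp_sq v
    have : ((w.1 * w.1 + w.2 * w.2) * sp v -
        (v.1 * w.1 + v.2 * w.2) * ((v.1 * w.1 + v.2 * w.2) / sp v)) / sp v ^ 2 =
        (w.1 * v.2 - w.2 * v.1) ^ 2 / sp v ^ 3 := by
      field_simp
      rw [h6]
      ring
    rw [this]
    ring
  rw [e2]
  have t1 : 0 ≤ 2 * w.1 ^ 2 := by positivity
  have t2 : 0 ≤ 2 * (Real.cosh p.1 * ((v.1 * w.1 + v.2 * w.2) / sp v) + Real.sinh p.1 * w.2) ^ 2 := by
    positivity
  have t3 : 0 ≤ 2 * n * Real.cosh p.1 * ((w.1 * v.2 - w.2 * v.1) ^ 2 / sp v ^ 3) := by positivity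
  by_cases hw1 : w.1 = 0
  · have hw2 : w.2 ≠ 0 := fun h => hw (Prod.ext hw1 h)
    by_cases hv1 : v.1 = 0
    · have hv2 : v.2 ≠ 0 := fun h => hv (Prod.ext hv1 h)
      have hspv : sp v = |v.2| := by
        rw [sp, hv1]
        simp [Real.sqrt_sq_eq_abs]
      have h7 : Real.cosh p.1 * ((v.1 * w.1 + v.2 * w.2) / sp v) + Real.sinh p.1 * w.2 ≠ 0 := by
        rw [hv1, hspv]
        have h8 := cosh_sub_pos p.1
        rw [abs_lt] at h8
        rcases lt_or_gt_of_ne hv2 with h9 | h9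
        · rw [abs_of_neg h9]
          have : Real.cosh p.1 * ((0 * w.1 + v.2 * w.2) / -v.2) + Real.sinh p.1 * w.2 =
            (Real.sinh p.1 - Real.cosh p.1) * w.2 := by
            field_simp
            ring
          rw [this]
          exact mul_ne_zero (by linarith) hw2
        · rw [abs_of_pos h9]
          have : Real.cosh p.1 * ((0 * w.1 + v.2 * w.2) / v.2) + Real.sinh p.1 * w.2 =
            (Real.sinh p.1 + Real.cosh p.1) * w.2 := by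
            field_simp
            ring
          rw [this]
          exact mul_ne_zero (by linarith) hw2
      have : 0 < 2 * (Real.cosh p.1 * ((v.1 * w.1 + v.2 * w.2) / sp v) + Real.sinh p.1 * w.2) ^ 2 := by
        positivity
      linarith
    · have h7 : w.1 * v.2 - w.2 * v.1 ≠ 0 := by
        rw [hw1, zero_mul, zero_sub]
        exact neg_ne_zero.2 (mul_ne_zero hw2 hv1)
      have : 0 < 2 * n * Real.cosh p.1 * ((w.1 * v.2 - w.2 * v.1) ^ 2 / sp v ^ 3) := by positivity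
      linarith
  · have : 0 < 2 * w.1 ^ 2 := by positivity
    linarith

end Pool.Agent.FBH
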