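import Pool.Agent.FBH.Complete

set_option autoImplicit false

open Filter Topology Set
open scoped ContDiff

namespace Pool.Agent.FBH

theorem pr_formula {z : TV} (hz : z.2 ≠ 0) :
    PP z (1, 0) = z.2.1 * (2 + 2 * nn z * Real.cosh z.1.1 / sp z.2) := by
  rw [PP_apply, fderiv_GG hz]
  simp only [Prod.fst_zero, mul_zero, mul_one, add_zero, zero_add]
  ring

theorem pt_formula {z : TV} (hz : z.2 ≠ 0) :
    PP z (0, 1) = 2 * nn z * (Real.cosh z.1.1 * (z.2.2 / sp z.2) + Real.sinh z.1.1) := by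
  rw [PP_apply, fderiv_GG hz]
  simp only [Prod.fst_zero, mul_zero, mul_one, add_zero, zero_add]

theorem qr_formula {z : TV} (hz : z.2 ≠ 0) :
    QQ z (1, 0) = 2 * nn z * (Real.sinh z.1.1 * sp z.2 + Real.cosh z.1.1 * z.2.2) := by
  rw [QQ_apply, fderiv_GG hz]
  simp only [Prod.fst_zero, Prod.snd_zero, mul_zero, mul_one, add_zero, zero_add, zero_div]

theorem qt_formula {z : TV} (hz : z.2 ≠ 0) : QQ z (0, 1) = 0 := by
  rw [QQ_apply, fderiv_GG hz]
  simp only [Prod.fst_zero, Prod.snd_zero, mul_zero, add_zero, zero_div]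

theorem no_closed : ¬ ∃ γ : ℝ → V2, ∃ T : ℝ, ∃ k : ℤ,
    ContDiff ℝ 2 γ ∧ 0 < T ∧ (∀ t, deriv γ t ≠ 0) ∧
    (∀ t, γ (t + T) = γ t + ((0 : ℝ), 2 * Real.pi * (k : ℝ))) ∧
    ∀ t : ℝ, deriv (fun s => fderiv ℝ (fun u : V2 => FF (γ s, u) ^ 2) (deriv γ s)) t
      = fderiv ℝ (fun q : V2 => FF (q, deriv γ t) ^ 2) (γ t) := by
  rintro ⟨γ, T, k, hγ, hT, hreg, hper, hEL⟩
  have hγd : ∀ t, HasDerivAt γ (deriv γ t) t := fun t =>
    (hγ.differentiable (by norm_num) t).hasDerivAt
  have hγ1 : ContDiff ℝ 1 (deriv γ) := by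
    rw [show (2 : WithTop ℕ∞) = 1 + 1 by norm_num, contDiff_succ_iff_deriv] at hγ
    exact hγ.2.2
  set α : ℝ → TV := fun t => (γ t, deriv γ t) with hαdef
  have hα1 : ContDiff ℝ 1 α := (hγ.of_le (by norm_num)).prodMk hγ1
  have hαd : ∀ t, DifferentiableAt ℝ α t := hα1.differentiable (by norm_num)
  have hU : ∀ t, (α t).2 ≠ 0 := hreg
  have hP : ∀ t, HasDerivAt (fun s => PP (α s)) (QQ (α t)) t := by
    intro t
    have hd : DifferentiableAt ℝ (fun s => PP (α s)) t :=
      DifferentiableAt.comp (g := PP) t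
        ((contDiffAt_PP (n := 1) (hU t)).differentiableAt (by norm_num)) (hαd t)
    have h1 := hEL t
    rw [fderiv_FF_pos (hreg t)] at h1
    have h2 : (fun s => fderiv ℝ (fun u : V2 => FF (γ s, u) ^ 2) (deriv γ s)) =
        fun s => PP (α s) := funext fun s => fderiv_FF_vel (hreg s)
    rw [h2] at h1
    rw [← h1]
    exact hd.hasDerivAt
  have hPw : ∀ (w : V2) (t : ℝ), HasDerivAt (fun s => PP (α s) w) (QQ (α t) w) t := by
    intro w t
    have := (hP t).clm_apply (hasDerivAt_const t w)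
    simpa using this
  -- angular momentum
  have hpt : ∀ t s, PP (α t) (0, 1) = PP (α s) (0, 1) := by
    intro t s
    refine is_const_of_deriv_eq_zero (fun t => (hPw (0, 1) t).differentiableAt) (fun t => ?_) t s
    rw [(hPw (0, 1) t).deriv, qt_formula (hU t)]
  -- the radial coordinate
  set r : ℝ → ℝ := fun t => (γ t).1 with hr
  have hrc : Continuous r := continuous_fst.comp hγ.continuous
  have hrd : ∀ t, HasDerivAt r (α t).2.1 t := fun t => (hγd t).fst
  have hrper : Function.Periodic r T := by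
    intro t
    simp only [hr, hper t, Prod.fst_add, add_zero]
  obtain ⟨t₁, ht₁, hmax⟩ := isCompact_Icc.exists_isMaxOn (s := Icc (0 : ℝ) T)
    ⟨0, left_mem_Icc.2 hT.le⟩ hrc.continuousOn
  obtain ⟨t₂, ht₂, hmin⟩ := isCompact_Icc.exists_isMinOn (s := Icc (0 : ℝ) T)
    ⟨0, left_mem_Icc.2 hT.le⟩ hrc.continuousOn
  have hmax' : ∀ t, r t ≤ r t₁ := by
    intro t
    obtain ⟨y, hy, hy'⟩ := hrper.exists_mem_Ico₀ hT t
    rw [hy']
    exact hmax (Ico_subset_Icc_self hy)
  have hmin' : ∀ t, r t₂ ≤ r t := by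
    intro t
    obtain ⟨y, hy, hy'⟩ := hrper.exists_mem_Ico₀ hT t
    rw [hy']
    exact hmin (Ico_subset_Icc_self hy)
  have hcrit : ∀ t, IsLocalExtr r t → (α t).2.1 = 0 := fun t h => h.hasDerivAt_eq_zero (hrd t)
  have hsgn : ∀ t, 0 < 2 + 2 * nn (α t) * Real.cosh (α t).1.1 / sp (α t).2 := by
    intro t
    have h1 := nn_pos (hU t)
    have h2 := sp_pos (hU t)
    have h3 := Real.cosh_pos (α t).1.1
    positivity
  -- at the maximum
  have hm1 : (α t₁).2.1 = 0 := hcrit t₁ (Or.inr (Eventually.of_forall hmax'))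
  have hm2 : (α t₂).2.1 = 0 := hcrit t₂ (Or.inl (Eventually.of_forall hmin'))
  have hτ : ∀ t, (α t).2.1 = 0 → (α t).2.2 ≠ 0 := fun t h1 h2 => hU t (Prod.ext h1 h2)
  have hspτ : ∀ t, (α t).2.1 = 0 → sp (α t).2 = |(α t).2.2| := by
    intro t h1
    rw [sp, h1]
    simp [Real.sqrt_sq_eq_abs]
  have hτ1 : (α t₁).2.2 < 0 := by
    by_contra hcon
    have hpos : 0 < (α t₁).2.2 := lt_of_le_of_ne (not_lt.1 hcon) (hτ t₁ hm1).symm
    have hq : 0 < QQ (α t₁) (1, 0) := by
      rw [qr_formula (hU t₁), hspτ t₁ hm1, abs_of_pos hpos]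
      have h1 := nn_pos (hU t₁)
      have h2 : 0 < Real.sinh (α t₁).1.1 + Real.cosh (α t₁).1.1 := by
        rw [add_comm, Real.cosh_add_sinh]
        exact Real.exp_pos _
      have : 0 < 2 * nn (α t₁) * ((Real.sinh (α t₁).1.1 + Real.cosh (α t₁).1.1) * (α t₁).2.2) := by
        positivity
      linarith
    have h0 : PP (α t₁) (1, 0) = 0 := by rw [pr_formula (hU t₁), hm1, zero_mul]
    have hd : 0 < deriv (fun s => PP (α s) (1, 0)) t₁ := by rw [(hPw (1, 0) t₁).deriv]; exact hq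
    have hev := eventually_nhdsWithin_sign_eq_of_deriv_pos hd h0
    obtain ⟨δ, hδ, hball⟩ := Metric.eventually_nhds_iff.1 hev
    obtain ⟨c, hc, hc'⟩ := exists_hasDerivAt_eq_slope r (fun t => (α t).2.1)
      (show t₁ < t₁ + δ / 2 by linarith) hrc.continuousOn (fun x _ => hrd x)
    have h1 : (α c).2.1 ≤ 0 := by
      rw [hc']
      have := hmax' (t₁ + δ / 2)
      exact div_nonpos_of_nonpos_of_nonneg (by linarith) (by linarith)
    have h2 := hball (y := c) (by
      rw [Real.dist_eq, abs_of_pos (by linarith [hc.1])]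
      linarith [hc.2])
    rw [sign_pos (by linarith [hc.1] : 0 < c - t₁), sign_eq_one_iff, pr_formula (hU c)] at h2
    have h3 := mul_nonpos_of_nonpos_of_nonneg h1 (hsgn c).le
    linarith
  have hτ2 : 0 < (α t₂).2.2 := by
    by_contra hcon
    have hneg : (α t₂).2.2 < 0 := lt_of_le_of_ne (not_lt.1 hcon) (hτ t₂ hm2)
    have hq : QQ (α t₂) (1, 0) < 0 := by
      rw [qr_formula (hU t₂), hspτ t₂ hm2, abs_of_neg hneg]
      have h1 := nn_pos (hU t₂)
      have h2 : 0 < Real.cosh (α t₂).1.1 - Real.sinh (α t₂).1.1 := by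
        rw [Real.cosh_sub_sinh]
        exact Real.exp_pos _
      have : 0 < 2 * nn (α t₂) * ((Real.cosh (α t₂).1.1 - Real.sinh (α t₂).1.1) * -(α t₂).2.2) := by
        have : 0 < -(α t₂).2.2 := by linarith
        positivity
      linarith
    have h0 : PP (α t₂) (1, 0) = 0 := by rw [pr_formula (hU t₂), hm2, zero_mul]
    have hd : deriv (fun s => PP (α s) (1, 0)) t₂ < 0 := by rw [(hPw (1, 0) t₂).deriv]; exact hq
    have hev := eventually_nhdsWithin_sign_eq_of_deriv_neg hd h0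
    obtain ⟨δ, hδ, hball⟩ := Metric.eventually_nhds_iff.1 hev
    obtain ⟨c, hc, hc'⟩ := exists_hasDerivAt_eq_slope r (fun t => (α t).2.1)
      (show t₂ < t₂ + δ / 2 by linarith) hrc.continuousOn (fun x _ => hrd x)
    have h1 : 0 ≤ (α c).2.1 := by
      rw [hc']
      have := hmin' (t₂ + δ / 2)
      exact div_nonneg (by linarith) (by linarith)
    have h2 := hball (y := c) (by
      rw [Real.dist_eq, abs_of_pos (by linarith [hc.1])]
      linarith [hc.2])
    rw [sign_neg (by linarith [hc.1] : t₂ - c < 0), sign_eq_neg_one_iff, pr_formula (hU c)] at h2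
    have h3 := mul_nonneg h1 (hsgn c).le
    linarith
  -- the contradiction
  have hp1 : PP (α t₁) (0, 1) < 0 := by
    rw [pt_formula (hU t₁), hspτ t₁ hm1, abs_of_neg hτ1]
    have h1 := nn_pos (hU t₁)
    have h2 : 0 < Real.cosh (α t₁).1.1 - Real.sinh (α t₁).1.1 := by
      rw [Real.cosh_sub_sinh]
      exact Real.exp_pos _
    have h3 : (α t₁).2.2 / -(α t₁).2.2 = -1 := by
      rw [div_neg, div_self (hτ t₁ hm1)]
    rw [h3]
    have : 0 < 2 * nn (α t₁) * (Real.cosh (α t₁).1.1 - Real.sinh (α t₁).1.1) := by positivity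
    linarith
  have hp2 : 0 < PP (α t₂) (0, 1) := by
    rw [pt_formula (hU t₂), hspτ t₂ hm2, abs_of_pos hτ2, div_self (hτ t₂ hm2), mul_one,
      Real.cosh_add_sinh]
    have h1 := nn_pos (hU t₂)
    positivity
  have := hpt t₁ t₂
  linarith

end Pool.Agent.FBH
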