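import Pool.Agent.FBH.Complete

set_option autoImplicit false

open Filter Topology Set MeasureTheory
open scoped ContDiff ENNReal

namespace Pool.Agent.FBH

/-- Key estimate: points of the box have `F ≤ 1`. -/
theorem box_aux {c s ρ τ a : ℝ} (ha1 : c + s = a) (ha2 : (c - s) * a = 1) (ha : 1 ≤ a) (hs : 0 ≤ s)
    (hρ : |ρ| ≤ 1 / 4) (hτ1 : a / 8 ≤ τ) (hτ2 : τ ≤ a / 4) :
    ρ ^ 2 + (c * √(ρ ^ 2 + τ ^ 2) - s * τ) ^ 2 ≤ 1 := by
  have hapos : 0 < a := by linarith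
  have hτ : 0 < τ := by linarith
  have hcpos : 0 < c := by
    have : 0 < c - s := by
      by_contra h
      have := mul_nonpos_of_nonpos_of_nonneg (not_lt.1 h) hapos.le
      linarith
    linarith
  have hca : c ≤ a := by linarith
  have hρ2 : ρ ^ 2 ≤ 1 / 16 := by
    have := abs_le.1 hρ
    nlinarith
  have hsq : √(ρ ^ 2 + τ ^ 2) ≤ τ + ρ ^ 2 / (2 * τ) := by
    refine Real.sqrt_le_iff.2 ⟨by positivity, ?_⟩
    have : (τ + ρ ^ 2 / (2 * τ)) ^ 2 = τ ^ 2 + ρ ^ 2 + (ρ ^ 2 / (2 * τ)) ^ 2 := by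
      field_simp
      ring
    rw [this]
    nlinarith [sq_nonneg (ρ ^ 2 / (2 * τ))]
  have hlow : τ ≤ √(ρ ^ 2 + τ ^ 2) := Real.le_sqrt_of_sq_le (by nlinarith [sq_nonneg ρ])
  have h1 : c * √(ρ ^ 2 + τ ^ 2) - s * τ ≤ 1 / 2 := by
    have h2 : c * √(ρ ^ 2 + τ ^ 2) ≤ c * (τ + ρ ^ 2 / (2 * τ)) := by gcongr
    have h3 : (c - s) * τ ≤ 1 / 4 := by
      have h5 : 0 < c - s := by
        by_contra h
        have := mul_nonpos_of_nonpos_of_nonneg (not_lt.1 h) hapos.le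
        linarith
      calc (c - s) * τ ≤ (c - s) * (a / 4) := by gcongr
        _ = 1 / 4 := by linarith
    have h4 : c * (ρ ^ 2 / (2 * τ)) ≤ 1 / 4 := by
      calc c * (ρ ^ 2 / (2 * τ)) ≤ a * ((1 / 16) / (2 * (a / 8))) := by gcongr
        _ = 1 / 4 := by field_simp; norm_num
    nlinarith
  have h0 : 0 ≤ c * √(ρ ^ 2 + τ ^ 2) - s * τ := by
    have h2 : s * τ ≤ c * √(ρ ^ 2 + τ ^ 2) := by
      have : s ≤ c := by
        by_contra h
        have := mul_nonpos_of_nonpos_of_nonneg (by linarith [not_le.1 h] : c - s ≤ 0) hapos.le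
        linarith
      exact mul_le_mul this hlow hτ.le hcpos.le
    linarith
  nlinarith

theorem box_pos {r θ : ℝ} (hr : 0 ≤ r) :
    Icc (-(1 / 4) : ℝ) (1 / 4) ×ˢ Icc (-(Real.exp r / 4)) (-(Real.exp r / 8)) ⊆
      {v : V2 | FF ((r, θ), v) ≤ 1} := by
  rintro ⟨ρ, τ⟩ ⟨hρ, hτ⟩
  simp only [mem_Icc] at hρ hτ
  have h := box_aux (c := Real.cosh r) (s := Real.sinh r) (ρ := ρ) (τ := -τ) (a := Real.exp r)
    (Real.cosh_add_sinh r) (by rw [Real.cosh_sub_sinh, ← Real.exp_add]; simp)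
    (Real.one_le_exp hr) (Real.sinh_nonneg_iff.2 hr) (abs_le.2 hρ) (by linarith) (by linarith)
  have h2 : GG ((r, θ), (ρ, τ)) ≤ 1 := by
    simp only [GG, nn, sp]
    simpa using h
  show FF ((r, θ), (ρ, τ)) ≤ 1
  rw [FF]
  exact Real.sqrt_le_one.2 h2

theorem box_neg {r θ : ℝ} (hr : r ≤ 0) :
    Icc (-(1 / 4) : ℝ) (1 / 4) ×ˢ Icc (Real.exp (-r) / 8) (Real.exp (-r) / 4) ⊆
      {v : V2 | FF ((r, θ), v) ≤ 1} := by
  rintro ⟨ρ, τ⟩ ⟨hρ, hτ⟩
  simp only [mem_Icc] at hρ hτ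
  have h := box_aux (c := Real.cosh r) (s := -Real.sinh r) (ρ := ρ) (τ := τ) (a := Real.exp (-r))
    (by rw [← sub_eq_add_neg, Real.cosh_sub_sinh])
    (by rw [sub_neg_eq_add, Real.cosh_add_sinh, ← Real.exp_add]; simp)
    (Real.one_le_exp (by linarith)) (by linarith [Real.sinh_nonpos_iff.2 hr]) (abs_le.2 hρ)
    (by linarith) (by linarith)
  have h2 : GG ((r, θ), (ρ, τ)) ≤ 1 := by
    simp only [GG, nn, sp]
    simpa using h
  show FF ((r, θ), (ρ, τ)) ≤ 1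
  rw [FF]
  exact Real.sqrt_le_one.2 h2

theorem ball_volume (x : V2) :
    ENNReal.ofReal (Real.exp |x.1| / 16) ≤ volume {v : V2 | FF (x, v) ≤ 1} := by
  obtain ⟨r, θ⟩ := x
  rcases le_total 0 r with hr | hr
  · refine le_trans (le_of_eq ?_) (measure_mono (box_pos (θ := θ) hr))
    rw [Measure.volume_eq_prod, Measure.prod_prod, Real.volume_Icc, Real.volume_Icc,
      ← ENNReal.ofReal_mul (by norm_num)]
    congr 1
    simp only [abs_of_nonneg hr]
    ring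
  · refine le_trans (le_of_eq ?_) (measure_mono (box_neg (θ := θ) hr))
    rw [Measure.volume_eq_prod, Measure.prod_prod, Real.volume_Icc, Real.volume_Icc,
      ← ENNReal.ofReal_mul (by norm_num)]
    congr 1
    simp only [abs_of_nonpos hr]
    ring

theorem integral_aux : ∫⁻ x : ℝ, ENNReal.ofReal (Real.exp (-|x|)) < ⊤ := by
  have h1 : ∀ x : ℝ, ENNReal.ofReal (Real.exp (-|x|)) ≤ ENNReal.ofReal (2 * (1 + x ^ 2)⁻¹) := by
    intro x
    refine ENNReal.ofReal_le_ofReal ?_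
    have h2 : (1 + x ^ 2) / 2 ≤ Real.exp |x| := by
      have h3 := Real.quadratic_le_exp_of_nonneg (abs_nonneg x)
      rw [sq_abs] at h3
      nlinarith [abs_nonneg x]
    rw [Real.exp_neg, show 2 * (1 + x ^ 2)⁻¹ = ((1 + x ^ 2) / 2)⁻¹ by field_simp]
    gcongr
  refine lt_of_le_of_lt (lintegral_mono h1) ?_
  have h4 : Integrable (fun x : ℝ => 2 * (1 + x ^ 2)⁻¹) := integrable_inv_one_add_sq.const_mul 2
  exact (hasFiniteIntegral_iff_ofReal (Eventually.of_forall fun x => by positivity)).1 h4.2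

theorem volume_finite : (∫⁻ x in (Set.univ : Set ℝ) ×ˢ Set.Ico (0 : ℝ) (2 * Real.pi),
    ENNReal.ofReal Real.pi / volume {v : V2 | FF (x, v) ≤ 1}) < ⊤ := by
  have h1 : ∀ x : V2, ENNReal.ofReal Real.pi / volume {v : V2 | FF (x, v) ≤ 1} ≤
      ENNReal.ofReal (16 * Real.pi) * (ENNReal.ofReal (Real.exp (-|x.1|)) * 1) := by
    intro x
    have h2 : ENNReal.ofReal Real.pi / volume {v : V2 | FF (x, v) ≤ 1} ≤
        ENNReal.ofReal Real.pi / ENNReal.ofReal (Real.exp |x.1| / 16) :=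
      ENNReal.div_le_div_left (ball_volume x) _
    refine h2.trans (le_of_eq ?_)
    rw [mul_one, ← ENNReal.ofReal_div_of_pos (by positivity), ← ENNReal.ofReal_mul (by positivity)]
    congr 1
    rw [Real.exp_neg]
    field_simp
  refine lt_of_le_of_lt (lintegral_mono h1) ?_
  rw [lintegral_const_mul' _ _ ENNReal.ofReal_ne_top, Measure.volume_eq_prod,
    ← Measure.prod_restrict, Measure.restrict_univ]
  have hm : AEMeasurable (fun x : ℝ => ENNReal.ofReal (Real.exp (-|x|))) volume :=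
    (ENNReal.continuous_ofReal.comp (Real.continuous_exp.comp continuous_abs.neg)).measurable.aemeasurable
  rw [lintegral_prod_mul (f := fun x : ℝ => ENNReal.ofReal (Real.exp (-|x|)))
    (g := fun _ : ℝ => (1 : ℝ≥0∞)) hm aemeasurable_const]
  refine ENNReal.mul_lt_top ENNReal.ofReal_lt_top (ENNReal.mul_lt_top integral_aux ?_)
  rw [lintegral_const, one_mul, Measure.restrict_apply_univ, Real.volume_Ico]
  exact ENNReal.ofReal_lt_top

end Pool.Agent.FBH
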